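import Mathlib

/-! # Self-exciting point process with intensity `λ ((N_{t-} + γ) / (t + 1))` -/

open Filter Set MeasureTheory ProbabilityTheory Topology
open scoped ENNReal

namespace Pool.Agent.R957.Self

noncomputable section

/-- The successive jump times, built from the numbers `e 0, e 1, …`: given the `n`-th jump time
`T n`, the next one is the first time `t ≥ T n` at which the integral of the intensity
`λ ((n + γ) / (s + 1))` over `(T n, t)` has reached `e n` (and `∞` if it never does). -/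
def jumpT (lam : ℝ → ℝ) (γ : ℝ) (e : ℕ → ℝ) : ℕ → ℝ≥0∞
  | 0 => 0
  | n + 1 => sInf {t : ℝ≥0∞ | jumpT lam γ e n ≤ t ∧
      ENNReal.ofReal (e n) ≤ ∫⁻ s in {s : ℝ | jumpT lam γ e n < ENNReal.ofReal s ∧
        ENNReal.ofReal s < t}, ENNReal.ofReal (lam ((n + γ) / (s + 1)))}

/-- the (numbers of the) points of the process in `[0, t]` -/
def points (lam : ℝ → ℝ) (γ : ℝ) (e : ℕ → ℝ) (t : ℝ) : Set ℕ :=
  {n | jumpT lam γ e (n + 1) ≤ ENNReal.ofReal t}

/-- law of independent exponential variables with parameter `1` -/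
def expLaw : Measure (ℕ → ℝ) := Measure.infinitePi fun _ : ℕ => expMeasure 1

/-- The probability that `N_t < ∞` for all `t` and `N_t / t → x`, for the initial condition `γ`,
where `N_t` is the number of points in `[0, t]`. -/
def limProb (lam : ℝ → ℝ) (x γ : ℝ) : ℝ≥0∞ :=
  expLaw {e | (∀ t, (points lam γ e t).Finite) ∧
    Tendsto (fun t : ℝ => ((points lam γ e t).ncard : ℝ) / t) atTop (𝓝 x)}

/-- stable fixed point -/
def StableFixed (lam : ℝ → ℝ) (x : ℝ) : Prop :=
  lam x = x ∧ (∀ᶠ y in 𝓝[<] x, y < lam y) ∧ ∀ᶠ y in 𝓝[>] x, lam y < y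

end

end Pool.Agent.R957.Self
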