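import Pool.Agent.R957.Self.Defs

open Filter Set MeasureTheory ProbabilityTheory Topology
open scoped ENNReal

namespace Pool.Agent.R957.Self

noncomputable section

instance : IsProbabilityMeasure (expMeasure 1) := isProbabilityMeasure_expMeasure one_pos

instance : IsProbabilityMeasure expLaw := by unfold expLaw; infer_instance

lemma exp_Iic (x : ℝ) (hx : 0 ≤ x) : (expMeasure 1).real (Iic x) = 1 - Real.exp (-x) := by
  rw [← cdf_eq_real, cdf_expMeasure_eq one_pos, if_pos hx, one_mul]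

lemma exp_Ioi (x : ℝ) (hx : 0 ≤ x) : (expMeasure 1) (Ioi x) = ENNReal.ofReal (Real.exp (-x)) := by
  have h : (expMeasure 1).real (Ioi x) = Real.exp (-x) := by
    rw [← compl_Iic, measureReal_compl measurableSet_Iic, probReal_univ, exp_Iic x hx]
    ring
  rw [← h, Measure.real, ENNReal.ofReal_toReal (measure_ne_top _ _)]

lemma map_coord (k : ℕ) : expLaw.map (fun e => e k) = expMeasure 1 := by
  unfold expLaw
  exact Measure.infinitePi_map_eval (μ := fun _ : ℕ => expMeasure 1) k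

lemma exp_ae_pos : ∀ᵐ x ∂(expMeasure 1), 0 < x := by
  rw [ae_iff]
  have h3 : {x : ℝ | ¬ 0 < x} = Iic 0 := by ext x; simp
  have h4 := exp_Iic 0 le_rfl
  rw [neg_zero, Real.exp_zero, sub_self, measureReal_eq_zero_iff] at h4
  rw [h3, h4]

lemma exp_pos : ∀ᵐ e ∂expLaw, ∀ k, 0 < e k := by
  rw [ae_all_iff]
  intro k
  have h2 : ∀ᵐ x ∂(expLaw.map (fun e => e k)), 0 < x := by
    rw [map_coord]; exact exp_ae_pos
  exact ae_of_ae_map (measurable_pi_apply k).aemeasurable h2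

lemma exp_lintegral : ∫⁻ x, ENNReal.ofReal x ∂(expMeasure 1) = 1 := by
  have h := lintegral_eq_lintegral_meas_lt (μ := expMeasure 1) (f := fun x : ℝ => x)
    (exp_ae_pos.mono fun x hx => hx.le) aemeasurable_id
  rw [h]
  have h2 : ∀ t ∈ Ioi (0 : ℝ), (expMeasure 1) {a : ℝ | t < a} = ENNReal.ofReal (Real.exp (-t)) :=
    fun t ht => exp_Ioi t (le_of_lt ht)
  rw [setLIntegral_congr_fun measurableSet_Ioi h2]
  rw [← ofReal_integral_eq_lintegral_ofReal]
  · rw [integral_exp_neg_Ioi]; simp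
  · exact (integrableOn_exp_neg_Ioi 0)
  · exact Eventually.of_forall fun x => (Real.exp_pos _).le

lemma exp_integrable : Integrable (fun x : ℝ => x) (expMeasure 1) := by
  refine ⟨aestronglyMeasurable_id, ?_⟩
  rw [hasFiniteIntegral_iff_ofReal (exp_ae_pos.mono fun x hx => hx.le), exp_lintegral]
  simp

lemma exp_mean : ∫ x, x ∂(expMeasure 1) = 1 := by
  rw [integral_eq_lintegral_of_nonneg_ae (exp_ae_pos.mono fun x hx => hx.le)
    aestronglyMeasurable_id, exp_lintegral]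
  simp

/-- strong law -/
lemma slln : ∀ᵐ e ∂expLaw, Tendsto (fun n : ℕ => (∑ k ∈ Finset.range n, e k) / (n : ℝ)) atTop
    (𝓝 (1 : ℝ)) := by
  have hind : iIndepFun (fun (k : ℕ) (e : ℕ → ℝ) => e k) expLaw :=
    iIndepFun_infinitePi (X := fun (_ : ℕ) (x : ℝ) => x) fun _ => measurable_id
  have hint : Integrable (fun e : ℕ → ℝ => e 0) expLaw := by
    have : Integrable (fun x : ℝ => x) (expLaw.map (fun e => e 0)) := by
      rw [map_coord]; exact exp_integrable
    exact this.comp_measurable (measurable_pi_apply 0)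
  have hid : ∀ i, IdentDistrib (fun e : ℕ → ℝ => e i) (fun e : ℕ → ℝ => e 0) expLaw expLaw :=
    fun i => ⟨(measurable_pi_apply i).aemeasurable, (measurable_pi_apply 0).aemeasurable, by
      rw [map_coord, map_coord]⟩
  have h := strong_law_ae_real (fun (k : ℕ) (e : ℕ → ℝ) => e k) hint
    (fun i j hij => hind.indepFun hij) hid
  have hm : ∫ e, e 0 ∂expLaw = 1 := by
    have := integral_map (μ := expLaw) (φ := fun e : ℕ → ℝ => e 0)
      (measurable_pi_apply 0).aemeasurable (f := fun x : ℝ => x) aestronglyMeasurable_id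
    rw [map_coord, exp_mean] at this
    exact this.symm
  rw [hm] at h
  exact h

/-- good event: `e 0 ≤ δ` and all partial sums are at most `C n` -/
lemma good_event (δ : ℝ) (hδ : 0 < δ) : ∃ C : ℕ,
    0 < expLaw {e | (∀ k, 0 < e k) ∧ e 0 ≤ δ ∧
      (∀ n : ℕ, ∑ k ∈ Finset.range n, e k ≤ (C + 1 : ℝ) * n) ∧
      Tendsto (fun n : ℕ => (∑ k ∈ Finset.range n, e k) / (n : ℝ)) atTop (𝓝 (1 : ℝ))} := by
  have hA : 0 < expLaw {e | e 0 ≤ δ} := by
    have h1 : expLaw {e | e 0 ≤ δ} = (expMeasure 1) (Iic δ) := by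
      rw [← map_coord 0, Measure.map_apply (measurable_pi_apply 0) measurableSet_Iic]; rfl
    rw [h1]
    have h2 := exp_Iic δ hδ.le
    have h3 : Real.exp (-δ) < 1 := by rw [Real.exp_lt_one_iff]; linarith
    rw [pos_iff_ne_zero]
    intro h0
    rw [Measure.real, h0, ENNReal.toReal_zero] at h2
    linarith
  by_contra hcon
  push Not at hcon
  have hnull : ∀ C : ℕ, expLaw {e | (∀ k, 0 < e k) ∧ e 0 ≤ δ ∧
      (∀ n : ℕ, ∑ k ∈ Finset.range n, e k ≤ (C + 1 : ℝ) * n) ∧
      Tendsto (fun n : ℕ => (∑ k ∈ Finset.range n, e k) / (n : ℝ)) atTop (𝓝 (1 : ℝ))} = 0 :=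
    fun C => nonpos_iff_eq_zero.1 (hcon C)
  have hU := measure_iUnion_null hnull
  have hbad : ∀ᵐ e ∂expLaw, ¬ e 0 ≤ δ := by
    have h1 : ∀ᵐ e ∂expLaw, e ∉ ⋃ C : ℕ, {e | (∀ k, 0 < e k) ∧ e 0 ≤ δ ∧
      (∀ n : ℕ, ∑ k ∈ Finset.range n, e k ≤ (C + 1 : ℝ) * n) ∧
      Tendsto (fun n : ℕ => (∑ k ∈ Finset.range n, e k) / (n : ℝ)) atTop (𝓝 (1 : ℝ))} := by
      exact measure_eq_zero_iff_ae_notMem.1 hU
    filter_upwards [h1, exp_pos, slln] with e h1 h2 h3 h4
    refine h1 ?_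
    rw [Set.mem_iUnion]
    obtain ⟨M, hM⟩ := h3.bddAbove_range
    obtain ⟨C, hC⟩ := exists_nat_ge M
    refine ⟨C, h2, h4, fun n => ?_, h3⟩
    rcases Nat.eq_zero_or_pos n with hn | hn
    · subst hn; simp
    · have hn' : (0 : ℝ) < n := by exact_mod_cast hn
      have := hM (Set.mem_range_self n)
      have h5 : (∑ k ∈ Finset.range n, e k) / (n : ℝ) ≤ C + 1 := by linarith
      rwa [div_le_iff₀ hn'] at h5
  rw [ae_iff] at hbad
  simp only [not_not] at hbad
  rw [hbad] at hA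
  exact lt_irrefl _ hA

end

end Pool.Agent.R957.Self
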