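import Pool.Agent.R957.Self.Exp

open Filter Set MeasureTheory ProbabilityTheory Topology
open scoped ENNReal

namespace Pool.Agent.R957.Self

noncomputable section

/-- the function `λ` of the example -/
def lam (L : ℝ) (x : ℝ) : ℝ := max 0 (1 / 2 - x) + min (max 0 (8 * L * (x - 1))) L

variable {L : ℝ}

lemma lam_cont (L : ℝ) : Continuous (lam L) := by unfold lam; fun_prop

lemma lam_low {x : ℝ} (hL : 0 ≤ L) (h : x ≤ 1 / 2) : lam L x = 1 / 2 - x := by
  unfold lam
  rw [max_eq_right (by linarith : (0:ℝ) ≤ 1 / 2 - x),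
    max_eq_left (mul_nonpos_of_nonneg_of_nonpos (by linarith) (by linarith)), min_eq_left hL,
    add_zero]

lemma lam_mid {x : ℝ} (hL : 0 ≤ L) (h : 1 / 2 ≤ x) (h' : x ≤ 1) : lam L x = 0 := by
  unfold lam
  rw [max_eq_left (by linarith : 1 / 2 - x ≤ 0),
    max_eq_left (mul_nonpos_of_nonneg_of_nonpos (by linarith) (by linarith)), min_eq_left hL,
    add_zero]

lemma lam_ramp {x : ℝ} (hL : 0 ≤ L) (h : 1 ≤ x) (h' : x ≤ 9 / 8) : lam L x = 8 * L * (x - 1) := by
  unfold lam
  have h1 : 0 ≤ 8 * L * (x - 1) := mul_nonneg (by linarith) (by linarith)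
  rw [max_eq_left (by linarith : 1 / 2 - x ≤ 0), max_eq_right h1, min_eq_left, zero_add]
  nlinarith

lemma lam_high {x : ℝ} (hL : 0 ≤ L) (h : 9 / 8 ≤ x) : lam L x = L := by
  unfold lam
  have h1 : L ≤ 8 * L * (x - 1) := by nlinarith
  rw [max_eq_left (by linarith : 1 / 2 - x ≤ 0), max_eq_right (hL.trans h1), min_eq_right h1,
    zero_add]

lemma lam_nonneg (hL : 0 ≤ L) (x : ℝ) : 0 ≤ lam L x := by
  unfold lam
  have h1 : 0 ≤ max 0 (1 / 2 - x) := le_max_left _ _
  have h2 : 0 ≤ min (max 0 (8 * L * (x - 1))) L := le_min (le_max_left _ _) hL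
  linarith

/-- integrals over the sets in the definition of the jump times -/
lemma set_eq {τ t : ℝ} (hτ : 0 ≤ τ) : {s : ℝ | ENNReal.ofReal τ < ENNReal.ofReal s ∧
    ENNReal.ofReal s < ENNReal.ofReal t} = Ioo τ t := by
  ext s
  simp only [Set.mem_ofPred_eq, Set.mem_Ioo]
  constructor
  · rintro ⟨h1, h2⟩
    have h3 : τ < s := (ENNReal.ofReal_lt_ofReal_iff_of_nonneg hτ).1 h1
    exact ⟨h3, (ENNReal.ofReal_lt_ofReal_iff_of_nonneg (hτ.trans h3.le)).1 h2⟩
  · rintro ⟨h1, h2⟩
    have hs : 0 < s := hτ.trans_lt h1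
    exact ⟨(ENNReal.ofReal_lt_ofReal_iff hs).2 h1, (ENNReal.ofReal_lt_ofReal_iff (hs.trans h2)).2 h2⟩

/-- lower bound for the next jump time: no intensity before `b` -/
lemma next_ge {l : ℝ → ℝ} {γ : ℝ} {e : ℕ → ℝ} {n : ℕ} (he : 0 < e n) {b : ℝ}
    (h : ∀ s : ℝ, jumpT l γ e n < ENNReal.ofReal s → s < b → l ((n + γ) / (s + 1)) ≤ 0) :
    ENNReal.ofReal b ≤ jumpT l γ e (n + 1) := by
  rw [jumpT]
  refine le_sInf ?_
  rintro t ⟨ht1, ht2⟩
  by_contra hlt
  rw [not_le] at hlt
  have hz : ∫⁻ s in {s : ℝ | jumpT l γ e n < ENNReal.ofReal s ∧ ENNReal.ofReal s < t},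
      ENNReal.ofReal (l ((n + γ) / (s + 1))) = 0 := by
    have hfun : ∀ s ∈ {s : ℝ | jumpT l γ e n < ENNReal.ofReal s ∧ ENNReal.ofReal s < t},
        ENNReal.ofReal (l ((n + γ) / (s + 1))) = 0 := by
      rintro s ⟨h1, h2⟩
      rw [ENNReal.ofReal_eq_zero]
      refine h s h1 ?_
      have h3 := h2.trans hlt
      by_contra hc
      exact absurd h3 (not_lt.2 (ENNReal.ofReal_le_ofReal (not_lt.1 hc)))
    have hmeas : MeasurableSet {s : ℝ | jumpT l γ e n < ENNReal.ofReal s ∧ ENNReal.ofReal s < t} :=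
      (measurableSet_lt measurable_const ENNReal.measurable_ofReal).inter
        (measurableSet_lt ENNReal.measurable_ofReal measurable_const)
    rw [setLIntegral_congr_fun hmeas hfun]
    simp
  rw [hz] at ht2
  have : 0 < ENNReal.ofReal (e n) := ENNReal.ofReal_pos.2 he
  exact absurd ht2 (not_le.2 this)

/-- upper bound for the next jump time -/
lemma next_le {l : ℝ → ℝ} {γ : ℝ} {e : ℕ → ℝ} {n : ℕ} {τ t c : ℝ} (hτ : 0 ≤ τ) (hT : jumpT l γ e n = ENNReal.ofReal τ)
    (htτ : τ ≤ t) (hc : 0 ≤ c) (h : ∀ s ∈ Ioo τ t, c ≤ l ((n + γ) / (s + 1)))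
    (he : e n ≤ c * (t - τ)) : jumpT l γ e (n + 1) ≤ ENNReal.ofReal t := by
  rw [jumpT]
  refine csInf_le' ⟨?_, ?_⟩
  · rw [hT]; exact ENNReal.ofReal_le_ofReal htτ
  · rw [hT, set_eq hτ]
    calc ENNReal.ofReal (e n) ≤ ENNReal.ofReal (c * (t - τ)) := ENNReal.ofReal_le_ofReal he
      _ = ∫⁻ _ in Ioo τ t, ENNReal.ofReal c := by
        rw [setLIntegral_const, Real.volume_Ioo, ENNReal.ofReal_mul hc]
      _ ≤ _ := by
        refine setLIntegral_mono' measurableSet_Ioo fun s hs => ?_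
        exact ENNReal.ofReal_le_ofReal (h s hs)

/-- the next jump time when the intensity is constant -/
lemma next_eq {l : ℝ → ℝ} {γ : ℝ} {e : ℕ → ℝ} {n : ℕ} {τ c : ℝ} (hτ : 0 ≤ τ)
    (hT : jumpT l γ e n = ENNReal.ofReal τ) (hc : 0 < c) (he : 0 < e n)
    (h : ∀ s ∈ Ioo τ (τ + e n / c), l ((n + γ) / (s + 1)) = c) :
    jumpT l γ e (n + 1) = ENNReal.ofReal (τ + e n / c) := by
  refine le_antisymm ?_ ?_
  · refine next_le (c := c) hτ hT (by have := div_pos he hc; linarith) hc.le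
      (fun s hs => (h s hs).ge) (le_of_eq ?_)
    field_simp
    ring
  · rw [jumpT]
    refine le_sInf ?_
    rintro t ⟨ht1, ht2⟩
    by_contra hlt
    rw [not_le] at hlt
    have htop : t ≠ ∞ := ne_top_of_lt hlt
    obtain ⟨t', ht'0, rfl⟩ : ∃ t' : ℝ, 0 ≤ t' ∧ t = ENNReal.ofReal t' :=
      ⟨t.toReal, ENNReal.toReal_nonneg, (ENNReal.ofReal_toReal htop).symm⟩
    have ht'lt : t' < τ + e n / c := (ENNReal.ofReal_lt_ofReal_iff_of_nonneg ht'0).1 hlt
    rw [hT, set_eq hτ] at ht2
    have hint : ∫⁻ s in Ioo τ t', ENNReal.ofReal (l ((n + γ) / (s + 1))) =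
        ENNReal.ofReal (c * (t' - τ)) := by
      have hfun : ∀ s ∈ Ioo τ t', ENNReal.ofReal (l ((n + γ) / (s + 1))) = ENNReal.ofReal c :=
        fun s hs => by rw [h s ⟨hs.1, hs.2.trans ht'lt⟩]
      rw [setLIntegral_congr_fun measurableSet_Ioo hfun, setLIntegral_const, Real.volume_Ioo,
        ENNReal.ofReal_mul hc.le]
    rw [hint] at ht2
    have h3 : c * (t' - τ) < e n := by
      have : t' - τ < e n / c := by linarith
      rw [lt_div_iff₀ hc] at this
      linarith
    exact absurd ht2 (not_le.2 ((ENNReal.ofReal_lt_ofReal_iff he).2 h3))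

/-! ### the initial condition `1`: the process never gets above `1` -/

lemma slow (hL : 0 ≤ L) {e : ℕ → ℝ} (he : ∀ k, 0 < e k) (n : ℕ) :
    ENNReal.ofReal (2 * n + 1) ≤ jumpT (lam L) 1 e (n + 1) := by
  induction n with
  | zero =>
    refine next_ge (he 0) fun s h1 h2 => ?_
    have hs : 0 < s := by
      rw [jumpT] at h1
      exact ENNReal.ofReal_pos.1 h1
    refine le_of_eq (lam_mid hL ?_ ?_)
    · rw [le_div_iff₀ (by linarith)]
      push_cast at h2 ⊢; linarith
    · rw [div_le_one (by linarith)]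
      push_cast; linarith
  | succ n ih =>
    refine next_ge (he (n + 1)) fun s h1 h2 => ?_
    have h3 := ih.trans_lt h1
    have hs : 2 * (n : ℝ) + 1 < s :=
      (ENNReal.ofReal_lt_ofReal_iff_of_nonneg (by positivity)).1 h3
    have hn : (0 : ℝ) ≤ n := by positivity
    refine le_of_eq (lam_mid hL ?_ ?_)
    · rw [le_div_iff₀ (by linarith)]
      push_cast at h2 ⊢; linarith
    · rw [div_le_one (by linarith)]
      push_cast; linarith

lemma slow_ratio (hL : 2 ≤ L) {e : ℕ → ℝ} (he : ∀ k, 0 < e k) :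
    ¬ Tendsto (fun t : ℝ => ((points (lam L) 1 e t).ncard : ℝ) / t) atTop (𝓝 L) := by
  intro h
  have hb : ∀ t : ℝ, 1 ≤ t → ((points (lam L) 1 e t).ncard : ℝ) / t ≤ 1 := by
    intro t ht
    have hsub : points (lam L) 1 e t ⊆ (Finset.range (⌊t⌋₊) : Set ℕ) := by
      intro n hn
      simp only [points, Set.mem_ofPred_eq] at hn
      have h1 := (slow (by linarith : 0 ≤ L) he n).trans hn
      have h2 : 2 * (n : ℝ) + 1 ≤ t := (ENNReal.ofReal_le_ofReal_iff (by linarith)).1 h1
      rw [Finset.coe_range, Set.mem_Iio, ← Nat.add_one_le_iff]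
      refine Nat.le_floor ?_
      push_cast
      have : (0 : ℝ) ≤ n := by positivity
      linarith
    have hc : (points (lam L) 1 e t).ncard ≤ ⌊t⌋₊ := by
      have := Set.ncard_le_ncard hsub (Finset.finite_toSet _)
      rwa [Set.ncard_coe_finset, Finset.card_range] at this
    rw [div_le_one (by linarith)]
    calc ((points (lam L) 1 e t).ncard : ℝ) ≤ (⌊t⌋₊ : ℝ) := by exact_mod_cast hc
      _ ≤ t := Nat.floor_le (by linarith)
  have := le_of_tendsto h (eventually_atTop.2 ⟨1, hb⟩)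
  linarith

/-! ### fast regime -/

/-- from time `m` on all the jumps are those of a Poisson process with rate `L` -/
lemma fast (hL : 0 < L) {γ : ℝ} {e : ℕ → ℝ} (he : ∀ k, 0 < e k) {m : ℕ} {τ : ℝ} (hτ : 0 ≤ τ)
    (hT : jumpT (lam L) γ e m = ENNReal.ofReal τ)
    (hb : ∀ n, m ≤ n → τ + (∑ k ∈ Finset.Ico m (n + 1), e k) / L ≤ 8 / 9 * (n + γ) - 1) (n : ℕ)
    (hn : m ≤ n) :
    jumpT (lam L) γ e n = ENNReal.ofReal (τ + (∑ k ∈ Finset.Ico m n, e k) / L) := by
  induction n, hn using Nat.le_induction with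
  | base => simp [hT]
  | succ n hn ih =>
    have hs0 : 0 ≤ ∑ k ∈ Finset.Ico m n, e k := Finset.sum_nonneg fun k _ => (he k).le
    have h0 : 0 ≤ τ + (∑ k ∈ Finset.Ico m n, e k) / L := by positivity
    have hsum : τ + (∑ k ∈ Finset.Ico m n, e k) / L + e n / L =
        τ + (∑ k ∈ Finset.Ico m (n + 1), e k) / L := by
      rw [Finset.sum_Ico_succ_top hn]; ring
    rw [← hsum]
    refine next_eq h0 ih hL (he n) fun s hs => ?_
    refine lam_high hL.le ?_
    have h1 := hb n hn
    rw [← hsum] at h1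
    have h2 : s + 1 ≤ 8 / 9 * (n + γ) := by linarith [hs.2]
    have h3 : 0 < s + 1 := by linarith [hs.1]
    rw [le_div_iff₀ h3]
    linarith

/-- counting points from the asymptotics of the jump times -/
lemma count {T : ℕ → ℝ≥0∞} (hmono : StrictMono T) (hfin : ∀ n, T n ≠ ∞)
    (hL : 0 < L) (hlim : Tendsto (fun n : ℕ => (T n).toReal / n) atTop (𝓝 (1 / L))) :
    (∀ t : ℝ, {n | T (n + 1) ≤ ENNReal.ofReal t}.Finite) ∧
    Tendsto (fun t : ℝ => ({n | T (n + 1) ≤ ENNReal.ofReal t}.ncard : ℝ) / t) atTop (𝓝 L) := by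
  -- T n tends to infinity
  have hreal : Tendsto (fun n : ℕ => (T n).toReal) atTop atTop := by
    have h1 : Tendsto (fun n : ℕ => (T n).toReal / n * n) atTop atTop :=
      hlim.pos_mul_atTop (by positivity) tendsto_natCast_atTop_atTop
    refine h1.congr' ?_
    filter_upwards [eventually_gt_atTop 0] with n hn
    have : (n : ℝ) ≠ 0 := by exact_mod_cast hn.ne'
    field_simp
  have hset : ∀ t : ℝ, ∃ N : ℕ, {n | T (n + 1) ≤ ENNReal.ofReal t} = Set.Iio N ∧
      ENNReal.ofReal t < T (N + 1) ∧ (N ≠ 0 → T N ≤ ENNReal.ofReal t) := by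
    intro t
    have hex : ∃ N, ENNReal.ofReal t < T (N + 1) := by
      obtain ⟨N, hN⟩ := (hreal.eventually_gt_atTop (max t 0)).exists_forall_of_atTop
      refine ⟨N, ?_⟩
      have h1 := hN (N + 1) (by omega)
      rw [← ENNReal.ofReal_toReal (hfin (N + 1))]
      refine (ENNReal.ofReal_lt_ofReal_iff ?_).2 ((le_max_left _ _).trans_lt h1)
      exact (le_max_right t 0).trans_lt h1
    classical
    refine ⟨Nat.find hex, ?_, Nat.find_spec hex, fun hN => ?_⟩
    · ext n
      simp only [Set.mem_ofPred_eq, Set.mem_Iio]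
      constructor
      · intro h
        by_contra hc
        have h1 : T (Nat.find hex + 1) ≤ T (n + 1) := hmono.monotone (by omega)
        exact absurd (h1.trans h) (not_le.2 (Nat.find_spec hex))
      · intro h
        exact not_lt.1 (Nat.find_min hex h)
    · obtain ⟨k, hk⟩ := Nat.exists_eq_succ_of_ne_zero hN
      have := Nat.find_min hex (m := k) (by omega)
      rw [hk]
      exact not_lt.1 this
  choose N hN1 hN2 hN3 using hset
  have hcard : ∀ t, {n | T (n + 1) ≤ ENNReal.ofReal t}.ncard = N t := by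
    intro t
    rw [hN1 t]
    have : (Set.Iio (N t) : Set ℕ) = (Finset.range (N t) : Set ℕ) := by ext; simp
    rw [this, Set.ncard_coe_finset, Finset.card_range]
  refine ⟨fun t => by rw [hN1 t]; exact Set.finite_Iio _, ?_⟩
  simp_rw [hcard]
  -- N t tends to infinity
  have hNinf : Tendsto N atTop atTop := by
    rw [tendsto_atTop]
    intro b
    filter_upwards [eventually_ge_atTop (T b).toReal] with t ht
    by_contra hc
    have h1 : T (N t + 1) ≤ T b := hmono.monotone (by omega)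
    have h2 := (hN2 t).trans_le h1
    rw [← ENNReal.ofReal_toReal (hfin b)] at h2
    exact absurd h2 (not_lt.2 (ENNReal.ofReal_le_ofReal ht))
  -- inverse
  have hinv : Tendsto (fun t : ℝ => t / (N t : ℝ)) atTop (𝓝 (1 / L)) := by
    have hlo : Tendsto (fun t : ℝ => (T (N t)).toReal / (N t : ℝ)) atTop (𝓝 (1 / L)) :=
      hlim.comp hNinf
    have hhi : Tendsto (fun t : ℝ => (T (N t + 1)).toReal / (N t : ℝ)) atTop (𝓝 (1 / L)) := by
      have h1 : Tendsto (fun n : ℕ => (T (n + 1)).toReal / ((n + 1 : ℕ) : ℝ)) atTop (𝓝 (1 / L)) :=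
        hlim.comp (tendsto_add_atTop_nat 1)
      have h2 : Tendsto (fun n : ℕ => ((n + 1 : ℕ) : ℝ) / n) atTop (𝓝 1) := by
        have := tendsto_natCast_div_add_atTop (1 : ℝ)
        have h3 := this.inv₀ one_ne_zero
        rw [inv_one] at h3
        refine h3.congr fun n => ?_
        rw [inv_div]; push_cast; rfl
      have h3 := h1.mul h2
      rw [mul_one] at h3
      have h4 : Tendsto (fun n : ℕ => (T (n + 1)).toReal / (n : ℝ)) atTop (𝓝 (1 / L)) := by
        refine h3.congr' ?_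
        filter_upwards [eventually_gt_atTop 0] with n hn
        have : (n : ℝ) ≠ 0 := by exact_mod_cast hn.ne'
        have h5 : ((n + 1 : ℕ) : ℝ) ≠ 0 := by positivity
        field_simp
      exact h4.comp hNinf
    refine tendsto_of_tendsto_of_tendsto_of_le_of_le' hlo hhi ?_ ?_
    · filter_upwards [hNinf.eventually_gt_atTop 0, eventually_ge_atTop 0] with t ht ht0
      have h1 := hN3 t ht.ne'
      rw [← ENNReal.ofReal_toReal (hfin (N t)), ENNReal.ofReal_le_ofReal_iff ht0] at h1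
      gcongr
    · filter_upwards [hNinf.eventually_gt_atTop 0, eventually_ge_atTop 0] with t ht ht0
      have h1 := hN2 t
      rw [← ENNReal.ofReal_toReal (hfin (N t + 1)),
        ENNReal.ofReal_lt_ofReal_iff_of_nonneg ht0] at h1
      gcongr
  have h := hinv.inv₀ (by positivity)
  rw [one_div, inv_inv] at h
  refine h.congr fun t => ?_
  rw [inv_div]

end

end Pool.Agent.R957.Self
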