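import Pool.Agent.R957.Self.Jump

open Filter Set MeasureTheory ProbabilityTheory Topology
open scoped ENNReal

namespace Pool.Agent.R957.Self

noncomputable section

variable {L : ℝ}

/-- the process in the fast regime has `N_t / t → L` -/
lemma fast_limit (hL : 0 < L) {γ : ℝ} {e : ℕ → ℝ} (he : ∀ k, 0 < e k)
    (hlln : Tendsto (fun n : ℕ => (∑ k ∈ Finset.range n, e k) / (n : ℝ)) atTop (𝓝 (1 : ℝ)))
    {τ : ℝ} (hτ : 0 < τ) (hT : jumpT (lam L) γ e 1 = ENNReal.ofReal τ)
    (hb : ∀ n : ℕ, 1 ≤ n → τ + (∑ k ∈ Finset.Ico 1 (n + 1), e k) / L ≤ 8 / 9 * (n + γ) - 1) :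
    (∀ t, (points (lam L) γ e t).Finite) ∧
    Tendsto (fun t : ℝ => ((points (lam L) γ e t).ncard : ℝ) / t) atTop (𝓝 L) := by
  have hf := fast hL he hτ.le hT hb
  have h00 : jumpT (lam L) γ e 0 = 0 := rfl
  have hfin : ∀ n, jumpT (lam L) γ e n ≠ ∞ := by
    intro n
    rcases Nat.eq_zero_or_pos n with hn | hn
    · subst hn; rw [h00]; exact ENNReal.zero_ne_top
    · rw [hf n hn]; exact ENNReal.ofReal_ne_top
  have hpos : ∀ n, 0 ≤ ∑ k ∈ Finset.Ico 1 n, e k := fun n => Finset.sum_nonneg fun k _ => (he k).le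
  have hmono : StrictMono (jumpT (lam L) γ e) := by
    refine strictMono_nat_of_lt_succ fun n => ?_
    rcases Nat.eq_zero_or_pos n with hn | hn
    · subst hn; rw [h00, hT]; exact ENNReal.ofReal_pos.2 hτ
    · rw [hf n hn, hf (n + 1) (by omega)]
      have h1 := hpos n
      have h2 := he n
      rw [ENNReal.ofReal_lt_ofReal_iff (by have := hpos (n + 1); positivity),
        Finset.sum_Ico_succ_top hn]
      gcongr
      linarith
  refine count hmono hfin hL ?_
  have h1 : Tendsto (fun n : ℕ => (τ - e 0 / L) / (n : ℝ) +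
      (∑ k ∈ Finset.range n, e k) / (n : ℝ) * (1 / L)) atTop (𝓝 (0 + 1 * (1 / L))) :=
    (tendsto_const_div_atTop_nhds_zero_nat (τ - e 0 / L)).add (hlln.mul_const _)
  rw [zero_add, one_mul] at h1
  refine h1.congr' ?_
  filter_upwards [eventually_ge_atTop 1] with n hn
  rw [hf n hn, ENNReal.toReal_ofReal (by have := hpos n; positivity)]
  have h2 : ∑ k ∈ Finset.range n, e k = e 0 + ∑ k ∈ Finset.Ico 1 n, e k := by
    rw [Finset.range_eq_Ico, Finset.sum_eq_sum_Ico_succ_bot (by omega)]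
  rw [h2]
  field_simp
  ring

/-- the first jump time for the initial condition `1 / 4` -/
lemma first_quarter (hL : 0 < L) {e : ℕ → ℝ} (he : ∀ k, 0 < e k) : ∃ τ : ℝ, 0 < τ ∧ τ ≤ 4 * e 0 ∧
    jumpT (lam L) (1 / 4) e 1 = ENNReal.ofReal τ := by
  have h0 := he 0
  have hT0 : jumpT (lam L) (1 / 4) e 0 = ENNReal.ofReal 0 := by rw [ENNReal.ofReal_zero]; rfl
  have hle : jumpT (lam L) (1 / 4) e (0 + 1) ≤ ENNReal.ofReal (4 * e 0) := by
    refine next_le (c := 1 / 4) le_rfl hT0 (by linarith) (by norm_num) (fun s hs => ?_)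
      (by linarith)
    have hs0 : 0 < s := hs.1
    have h1 : ((0 : ℕ) + 1 / 4 : ℝ) / (s + 1) ≤ 1 / 4 := by
      rw [div_le_iff₀ (by linarith)]; push_cast; linarith
    rw [lam_low hL.le (by linarith)]
    linarith
  have hne : jumpT (lam L) (1 / 4) e 1 ≠ ∞ := ne_top_of_le_ne_top ENNReal.ofReal_ne_top hle
  have hpos : 0 < jumpT (lam L) (1 / 4) e 1 := by
    -- the intensity is at most `1/2` up to time `e 0`
    rw [pos_iff_ne_zero]
    intro hz
    have : sInf {t : ℝ≥0∞ | jumpT (lam L) (1 / 4) e 0 ≤ t ∧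
      ENNReal.ofReal (e 0) ≤ ∫⁻ s in {s : ℝ | jumpT (lam L) (1 / 4) e 0 < ENNReal.ofReal s ∧
        ENNReal.ofReal s < t}, ENNReal.ofReal (lam L (((0 : ℕ) + 1 / 4) / (s + 1)))} = 0 := hz
    have hlt : sInf {t : ℝ≥0∞ | jumpT (lam L) (1 / 4) e 0 ≤ t ∧
      ENNReal.ofReal (e 0) ≤ ∫⁻ s in {s : ℝ | jumpT (lam L) (1 / 4) e 0 < ENNReal.ofReal s ∧
        ENNReal.ofReal s < t}, ENNReal.ofReal (lam L (((0 : ℕ) + 1 / 4) / (s + 1)))} <
        ENNReal.ofReal (e 0) := by rw [this]; exact ENNReal.ofReal_pos.2 h0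
    obtain ⟨t, ⟨_, ht2⟩, ht3⟩ := sInf_lt_iff.1 hlt
    have htop : t ≠ ∞ := ne_top_of_lt ht3
    obtain ⟨t', ht'0, rfl⟩ : ∃ t' : ℝ, 0 ≤ t' ∧ t = ENNReal.ofReal t' :=
      ⟨t.toReal, ENNReal.toReal_nonneg, (ENNReal.ofReal_toReal htop).symm⟩
    have ht'lt : t' < e 0 := (ENNReal.ofReal_lt_ofReal_iff_of_nonneg ht'0).1 ht3
    rw [hT0, set_eq le_rfl] at ht2
    have hint : ∫⁻ s in Ioo 0 t', ENNReal.ofReal (lam L (((0 : ℕ) + 1 / 4) / (s + 1))) ≤
        ENNReal.ofReal t' := by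
      calc _ ≤ ∫⁻ _ in Ioo 0 t', 1 := by
            refine setLIntegral_mono' measurableSet_Ioo fun s hs => ?_
            have hs0 : 0 < s := hs.1
            have h1 : ((0 : ℕ) + 1 / 4 : ℝ) / (s + 1) ≤ 1 / 4 := by
              rw [div_le_iff₀ (by linarith)]; push_cast; linarith
            have h2 : 0 ≤ ((0 : ℕ) + 1 / 4 : ℝ) / (s + 1) := by positivity
            rw [lam_low hL.le (by linarith), ← ENNReal.ofReal_one]
            exact ENNReal.ofReal_le_ofReal (by linarith)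
        _ = ENNReal.ofReal t' := by rw [setLIntegral_one, Real.volume_Ioo, sub_zero]
    have h4 := ht2.trans hint
    exact absurd h4 (not_le.2 ((ENNReal.ofReal_lt_ofReal_iff h0).2 ht'lt))
  refine ⟨(jumpT (lam L) (1 / 4) e 1).toReal, ENNReal.toReal_pos hpos.ne' hne, ?_,
    (ENNReal.ofReal_toReal hne).symm⟩
  exact ENNReal.toReal_le_of_le_ofReal (by linarith) hle

/-- the first jump time for the initial condition `3` -/
lemma first_three (hL : 0 < L) {e : ℕ → ℝ} (he : ∀ k, 0 < e k) (hs : e 0 / L ≤ 1) :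
    jumpT (lam L) 3 e 1 = ENNReal.ofReal (e 0 / L) := by
  have hT0 : jumpT (lam L) 3 e 0 = ENNReal.ofReal 0 := by rw [ENNReal.ofReal_zero]; rfl
  have h := next_eq (c := L) le_rfl hT0 hL (he 0) (fun s hs' => ?_)
  · rw [zero_add, zero_add] at h
    exact h
  · rw [zero_add] at hs'
    refine lam_high hL.le ?_
    rw [le_div_iff₀ (by linarith [hs'.1])]
    push_cast
    linarith [hs'.2]

theorem limProb_one (hL : 2 ≤ L) : limProb (lam L) L 1 = 0 := by
  unfold limProb
  refine measure_mono_null ?_ (ae_iff.1 exp_pos)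
  rintro e ⟨_, h⟩ he
  exact slow_ratio hL he h

theorem exists_L : ∃ L : ℝ, 2 ≤ L ∧ 0 < limProb (lam L) L (1 / 4) ∧ 0 < limProb (lam L) L 3 := by
  obtain ⟨C, hC⟩ := good_event (1 / 72) (by norm_num)
  set L : ℝ := 36 * (C + 1) with hLdef
  have hC0 : (0 : ℝ) ≤ C := by positivity
  have hL2 : 2 ≤ L := by rw [hLdef]; linarith
  have hL : 0 < L := by linarith
  refine ⟨L, hL2, ?_, ?_⟩
  · refine hC.trans_le (measure_mono ?_)
    rintro e ⟨he, h0, hsum, hlln⟩
    obtain ⟨τ, hτ, hτ4, hT⟩ := first_quarter hL he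
    refine fast_limit hL he hlln hτ hT fun n hn => ?_
    have h1 : ∑ k ∈ Finset.Ico 1 (n + 1), e k ≤ (C + 1) * (n + 1 : ℕ) := by
      refine le_trans ?_ (hsum (n + 1))
      rw [Finset.range_eq_Ico, Finset.sum_eq_sum_Ico_succ_bot (by omega : 0 < n + 1)]
      have := he 0
      simp only [zero_add]
      linarith
    have hn' : (1 : ℝ) ≤ n := by exact_mod_cast hn
    have h2 : (∑ k ∈ Finset.Ico 1 (n + 1), e k) / L ≤ ((n : ℝ) + 1) / 36 := by
      rw [div_le_div_iff₀ hL (by norm_num), hLdef]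
      push_cast at h1
      nlinarith
    linarith
  · refine hC.trans_le (measure_mono ?_)
    rintro e ⟨he, h0, hsum, hlln⟩
    have he0 := he 0
    have hs1 : e 0 / L ≤ 1 := by
      rw [div_le_one hL]; linarith
    have hT := first_three hL he hs1
    refine fast_limit hL he hlln (by positivity) hT fun n hn => ?_
    have h1 := hsum (n + 1)
    have e1 : e 0 / L + (∑ k ∈ Finset.Ico 1 (n + 1), e k) / L =
        (∑ k ∈ Finset.range (n + 1), e k) / L := by
      rw [Finset.range_eq_Ico, Finset.sum_eq_sum_Ico_succ_bot (by omega : 0 < n + 1)]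
      simp only [zero_add]
      ring
    rw [e1]
    have hn' : (1 : ℝ) ≤ n := by exact_mod_cast hn
    have h2 : (∑ k ∈ Finset.range (n + 1), e k) / L ≤ ((n : ℝ) + 1) / 36 := by
      rw [div_le_div_iff₀ hL (by norm_num), hLdef]
      push_cast at h1
      nlinarith
    linarith

/-! ### fixed points -/

lemma fixed_iff (hL : 2 ≤ L) {x : ℝ} (hx : 0 ≤ x) :
    lam L x = x ↔ x = 1 / 4 ∨ x = 8 * L / (8 * L - 1) ∨ x = L := by
  have hL0 : 0 ≤ L := by linarith
  have hd : 0 < 8 * L - 1 := by linarith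
  have hr1 : 1 < 8 * L / (8 * L - 1) := by rw [lt_div_iff₀ hd]; linarith
  have hr2 : 8 * L / (8 * L - 1) ≤ 9 / 8 := by rw [div_le_iff₀ hd]; linarith
  constructor
  · intro h
    rcases le_total x (1 / 2) with h1 | h1
    · rw [lam_low hL0 h1] at h; left; linarith
    · rcases le_total x 1 with h2 | h2
      · rw [lam_mid hL0 h1 h2] at h; linarith
      · rcases le_total x (9 / 8) with h3 | h3
        · rw [lam_ramp hL0 h2 h3] at h
          right; left
          rw [eq_div_iff hd.ne']; linarith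
        · rw [lam_high hL0 h3] at h
          right; right; exact h.symm
  · rintro (h | h | h)
    · rw [h, lam_low hL0 (by norm_num)]; norm_num
    · rw [lam_ramp hL0 (by rw [h]; exact hr1.le) (by rw [h]; exact hr2), h]
      field_simp
      ring
    · rw [h, lam_high hL0 (by linarith)]

lemma stable_iff (hL : 2 ≤ L) {x : ℝ} (hx : 0 ≤ x) :
    StableFixed (lam L) x ↔ x = 1 / 4 ∨ x = L := by
  have hL0 : 0 ≤ L := by linarith
  have hd : 0 < 8 * L - 1 := by linarith
  have hr1 : 1 < 8 * L / (8 * L - 1) := by rw [lt_div_iff₀ hd]; linarith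
  have hr2 : 8 * L / (8 * L - 1) < 9 / 8 := by rw [div_lt_iff₀ hd]; linarith
  constructor
  · rintro ⟨h1, h2, h3⟩
    rcases (fixed_iff hL hx).1 h1 with h | h | h
    · exact Or.inl h
    · exfalso
      -- just above, `λ (y) > y`
      have h4 : ∀ᶠ y in 𝓝[>] x, y < 9 / 8 := by
        refine mem_nhdsWithin_of_mem_nhds ?_
        exact gt_mem_nhds (by rw [h]; exact hr2)
      have h5 : ∀ᶠ y in 𝓝[>] x, x < y := self_mem_nhdsWithin
      obtain ⟨y, hy1, hy2, hy3⟩ := (h3.and (h4.and h5)).exists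
      have hx1 : 1 < x := by rw [h]; exact hr1
      rw [lam_ramp hL0 (by linarith) hy2.le] at hy1
      have hxe : x * (8 * L - 1) = 8 * L := by rw [h]; field_simp
      nlinarith
    · exact Or.inr h
  · rintro (h | h)
    · subst h
      refine ⟨(fixed_iff hL (by norm_num)).2 (Or.inl rfl), ?_, ?_⟩
      · have h5 : ∀ᶠ y in 𝓝[<] (1 / 4 : ℝ), y < 1 / 4 := self_mem_nhdsWithin
        filter_upwards [h5] with y hy
        rw [lam_low hL0 (by linarith)]; linarith
      · have h5 : ∀ᶠ y in 𝓝[>] (1 / 4 : ℝ), 1 / 4 < y := self_mem_nhdsWithin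
        have h6 : ∀ᶠ y in 𝓝[>] (1 / 4 : ℝ), y < 1 / 2 :=
          mem_nhdsWithin_of_mem_nhds (gt_mem_nhds (by norm_num))
        filter_upwards [h5, h6] with y hy hy'
        rw [lam_low hL0 hy'.le]; linarith
    · subst h
      refine ⟨(fixed_iff hL hx).2 (Or.inr (Or.inr rfl)), ?_, ?_⟩
      · have h5 : ∀ᶠ y in 𝓝[<] x, y < x := self_mem_nhdsWithin
        have h6 : ∀ᶠ y in 𝓝[<] x, 9 / 8 < y :=
          mem_nhdsWithin_of_mem_nhds (lt_mem_nhds (by linarith))
        filter_upwards [h5, h6] with y hy hy'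
        rw [lam_high hL0 hy'.le]; exact hy
      · have h5 : ∀ᶠ y in 𝓝[>] x, x < y := self_mem_nhdsWithin
        filter_upwards [h5] with y hy
        rw [lam_high hL0 (by linarith)]; exact hy

end

end Pool.Agent.R957.Self
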